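import Mathlib
import Pool.Agent.J4H26.KP.Noat

/-!
# (N4): the sum over the types is a sum over the colourings of the clusters
-/

set_option autoImplicit false

namespace Pool.Agent.J4H54.KP

open Finset

/-- the sum over the unions of blocks of a partition -/
theorem sum_blocks {α : Type} [Fintype α] [DecidableEq α] (P : Finset (Finset α))
    (hne : ∀ B ∈ P, B.Nonempty) (hd : ∀ B ∈ P, ∀ B' ∈ P, ∀ i, i ∈ B → i ∈ B' → B = B')
    (hc : ∀ i, ∃ B ∈ P, i ∈ B) (δ : ℝ) (φ : ℕ → ℝ) (m : Finset α → Finset α → ℝ)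
    (hm1 : ∀ A, ∀ B ∈ P, B ⊆ A → m A B = δ) (hm2 : ∀ A, ∀ B ∈ P, Disjoint B A → m A B = 1 - δ)
    (hm3 : ∀ A, ∀ B ∈ P, ¬ B ⊆ A → ¬ Disjoint B A → m A B = 0) :
    ∑ A : Finset α, φ #A * ∏ B ∈ P, m A B =
      ∑ S ∈ P.powerset, δ ^ #S * (1 - δ) ^ (#P - #S) * φ (∑ B ∈ S, #B) := by
  classical
  have hsub : ∀ S ∈ P.powerset, ∀ B ∈ P, B ⊆ S.biUnion id ↔ B ∈ S := by
    intro S hS B hB
    constructor
    · intro h
      obtain ⟨i, hi⟩ := hne B hB
      obtain ⟨B', hB', hi'⟩ := mem_biUnion.1 (h hi)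
      rw [hd B hB B' (mem_powerset.1 hS hB') i hi hi']
      exact hB'
    · intro h i hi
      exact mem_biUnion.2 ⟨B, h, hi⟩
  have hdis : ∀ S ∈ P.powerset, ∀ B ∈ P, B ∉ S → Disjoint B (S.biUnion id) := by
    intro S hS B hB hBS
    rw [Finset.disjoint_left]
    intro i hi hi'
    obtain ⟨B', hB', hi''⟩ := mem_biUnion.1 hi'
    apply hBS
    rw [hd B hB B' (mem_powerset.1 hS hB') i hi hi'']
    exact hB'
  symm
  refine Finset.sum_of_injOn (fun S => S.biUnion id) ?_ ?_ ?_ ?_
  · intro S hS S' hS' h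
    have hS := Finset.mem_coe.1 hS
    have hS' := Finset.mem_coe.1 hS'
    have h' : S.biUnion id = S'.biUnion id := h
    ext B
    constructor
    · intro hB
      have hBP := mem_powerset.1 hS hB
      rw [← hsub S' hS' B hBP, ← h', hsub S hS B hBP]
      exact hB
    · intro hB
      have hBP := mem_powerset.1 hS' hB
      rw [← hsub S hS B hBP, h', hsub S' hS' B hBP]
      exact hB
  · intro S _
    exact Finset.mem_coe.2 (mem_univ _)
  · intro A _ hA
    by_contra h0
    apply hA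
    have hall : ∀ B ∈ P, B ⊆ A ∨ Disjoint B A := by
      intro B hB
      by_contra hcon
      rw [not_or] at hcon
      apply h0
      rw [prod_eq_zero hB (hm3 A B hB hcon.1 hcon.2), mul_zero]
    refine ⟨P.filter (· ⊆ A), Finset.mem_coe.2 (mem_powerset.2 (filter_subset _ _)), ?_⟩
    show (P.filter (· ⊆ A)).biUnion id = A
    ext i
    rw [mem_biUnion]
    constructor
    · rintro ⟨B, hB, hi⟩
      exact (mem_filter.1 hB).2 hi
    · intro hi
      obtain ⟨B, hB, hiB⟩ := hc i
      refine ⟨B, mem_filter.2 ⟨hB, ?_⟩, hiB⟩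
      rcases hall B hB with h | h
      · exact h
      · exact absurd hi (Finset.disjoint_left.1 h hiB)
  · intro S hS
    have hcard : #(S.biUnion id) = ∑ B ∈ S, #B := by
      rw [card_biUnion]
      · rfl
      · intro B hB B' hB' hne'
        show Disjoint B B'
        rw [Finset.disjoint_left]
        intro i hi hi'
        exact hne' (hd B (mem_powerset.1 hS hB) B' (mem_powerset.1 hS hB') i hi hi')
    have hprod : ∏ B ∈ P, m (S.biUnion id) B = δ ^ #S * (1 - δ) ^ (#P - #S) := by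
      have e1 : ∏ B ∈ P, m (S.biUnion id) B = ∏ B ∈ P, (if B ∈ S then δ else 1 - δ) := by
        refine prod_congr rfl fun B hB => ?_
        split_ifs with h
        · exact hm1 _ B hB ((hsub S hS B hB).2 h)
        · exact hm2 _ B hB (hdis S hS B hB h)
      rw [e1, prod_ite, prod_const, prod_const]
      have hSP := mem_powerset.1 hS
      have e2 : P.filter (fun B => B ∈ S) = S := by
        ext B
        rw [mem_filter]
        exact ⟨fun h => h.2, fun h => ⟨hSP h, h⟩⟩
      have e3 : P.filter (fun B => B ∉ S) = P \ S := by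
        ext B
        rw [mem_filter, mem_sdiff]
      rw [e2, e3, card_sdiff_of_subset hSP]
    show _ = φ #(S.biUnion id) * ∏ B ∈ P, m (S.biUnion id) B
    rw [hcard, hprod]
    ring

/-- (N4) of `Pool.Agent.J4H26.KP.Noat` -/
theorem t_EXP : Pool.Agent.J4H26.KP.S_EXP := by
  classical
  intro K u δ φ
  have h := sum_blocks (Pool.Agent.J4H26.KP.cz u) (fun B hB => Pool.Agent.J4H26.KP.cz_nonempty hB)
    (fun B hB B' hB' i hi hi' => Pool.Agent.J4H26.KP.cz_disj hB hB' hi hi')
    (fun i => Pool.Agent.J4H26.KP.cz_cover u i) δ φ (fun A B => Pool.Agent.J4H26.KP.dA A δ B)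
    (fun A B _ h => by
      show Pool.Agent.J4H26.KP.dA A δ B = δ
      unfold Pool.Agent.J4H26.KP.dA
      rw [if_pos h])
    (fun A B hB h => by
      show Pool.Agent.J4H26.KP.dA A δ B = 1 - δ
      unfold Pool.Agent.J4H26.KP.dA
      obtain ⟨i, hi⟩ := Pool.Agent.J4H26.KP.cz_nonempty hB
      rw [if_neg (fun h' => Finset.disjoint_left.1 h hi (h' hi)), if_pos h])
    (fun A B _ h h' => by
      show Pool.Agent.J4H26.KP.dA A δ B = 0
      unfold Pool.Agent.J4H26.KP.dA
      rw [if_neg h, if_neg h'])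
  simp only [Pool.Agent.J4H26.KP.mZ_cz]
  exact h

end Pool.Agent.J4H54.KP
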